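import Pool.Agent.Lib.MP_1a91b9_ntT.D3.Est

/-!
# Stream D3, file Tors: `E1` at torsion points of order prime to `q` is integral at `q`
-/

set_option autoImplicit false

namespace Pool.Agent.Lib.MP_1a91b9_ntT.Ell

open Complex Pool.Agent.Lib.MP_1a91b9_ntT.S3

noncomputable section

/-- The slope of the chord, divided by two. -/
def sl (u v : ℂ) : ℂ := (E1 (u + v) - E1 u - E1 v) / Om

theorem X_neg (z : ℂ) : X (-z) = X z := by rw [X, X, PP.weierstrassP_neg]

theorem Y_neg (z : ℂ) : Y (-z) = -Y z := by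
  rw [Y, Y, PP.derivWeierstrassP_neg, neg_div]

theorem Y_add {l : ℂ} (hl : l ∈ PP.lattice) (z : ℂ) : Y (z + l) = Y z := by
  rw [Y, Y, Q_add hl]

theorem sl_sq {u v : ℂ} (hu : u ∉ PP.lattice) (hv : v ∉ PP.lattice) (huv : u + v ∉ PP.lattice) :
    X u + X v + X (u + v) = sl u v ^ 2 := by
  have h := add_sq hu hv huv
  rw [sl, div_pow, h, X, X, X]
  ring

theorem chord0 {z w : ℂ} (hz : 2 * z ∉ PP.lattice) (hw : 2 * w ∉ PP.lattice)
    (h1 : z - w ∉ PP.lattice) (h2 : z + w ∉ PP.lattice) :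
    2 * (PP.weierstrassP z - PP.weierstrassP w) * (E1 (z + w) - E1 z - E1 w) =
      PP.derivWeierstrassP z - PP.derivWeierstrassP w := by
  have a := sig hw (notMem_of_two_mul hz) h1 h2
  have h1' : w - z ∉ PP.lattice := fun h => h1 (by simpa using neg_mem h)
  have h2' : w + z ∉ PP.lattice := by rwa [add_comm]
  have b := sig hz (notMem_of_two_mul hw) h1' h2'
  have e : E1 (w - z) = -E1 (z - w) := by rw [← E1_neg, neg_sub]
  rw [e, add_comm w z] at b
  linear_combination b - a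

/-- The chord relation. -/
theorem chord {z w : ℂ} (hz : 2 * z ∉ PP.lattice) (hw : 2 * w ∉ PP.lattice)
    (h1 : z - w ∉ PP.lattice) (h2 : z + w ∉ PP.lattice) :
    Y z - Y w = 2 * sl z w * (X z - X w) := by
  have h := chord0 hz hw h1 h2
  have hO := Om_ne_zero
  rw [Y, Y, X, X, sl]
  field_simp
  linear_combination -h

/-- The third point is on the line through the first two. -/
theorem third_line {u v : ℂ} (hu2 : 2 * u ∉ PP.lattice) (hv : v ∉ PP.lattice)
    (huv : u + v ∉ PP.lattice) (ν : ℂ) (hν : Y u = 2 * sl u v * X u + ν)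
    (e1 : X u + X v + X (u + v) = sl u v ^ 2)
    (e2 : X u * X v + X u * X (u + v) + X v * X (u + v) = -(sl u v * ν))
    (e3 : 4 * (X u * X v * X (u + v)) = ν ^ 2 - 1) :
    -Y (u + v) = 2 * sl u v * X (u + v) + ν := by
  by_cases hA : 2 * u + v ∈ PP.lattice
  · have h1 : -(u + v) + (2 * u + v) = u := by ring
    have hX := X_add hA (-(u + v))
    have hY := Y_add hA (-(u + v))
    rw [h1, X_neg] at hX
    rw [h1, Y_neg] at hY
    rw [← hX, ← hY, hν]
  by_cases hB : 2 * (u + v) ∈ PP.lattice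
  · have hY0 : Y (u + v) = 0 := by rw [Y, Q_half hB, zero_div]
    have hc := Y_sq huv
    rw [hY0] at hc
    have h1 : (2 * sl u v * X (u + v) + ν) ^ 2 = 0 := by
      linear_combination -hc - 4 * X (u + v) ^ 2 * e1 + 4 * X (u + v) * e2 - e3
    rw [hY0, neg_zero]
    exact (pow_eq_zero_iff two_ne_zero).1 h1 |>.symm
  · have hn : 2 * -(u + v) ∉ PP.lattice := fun h => hB (by
      have := neg_mem h
      have e : -(2 * -(u + v)) = 2 * (u + v) := by ring
      rwa [e] at this)
    have h1 : u - -(u + v) ∉ PP.lattice := fun h => hA (by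
      have e : u - -(u + v) = 2 * u + v := by ring
      rwa [e] at h)
    have h2 : u + -(u + v) ∉ PP.lattice := fun h => hv (by
      have := neg_mem h
      have e : -(u + -(u + v)) = v := by ring
      rwa [e] at this)
    have h := chord hu2 hn h1 h2
    have hs : sl u (-(u + v)) = sl u v := by
      have e : u + -(u + v) = -v := by ring
      rw [sl, sl, e, E1_neg, E1_neg]
      ring
    rw [hs, X_neg, Y_neg] at h
    linear_combination hν - h

variable {A : ValuationSubring ℂ}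

/-- The line attached to a chord. -/
theorem line_chord {u v : ℂ} (hu2 : 2 * u ∉ PP.lattice) (hv2 : 2 * v ∉ PP.lattice)
    (hd : u - v ∉ PP.lattice) (huv : u + v ∉ PP.lattice) (hX : X u ≠ X v) :
    Line (X u) (Y u) (X v) (Y v) (X (u + v)) (Y (u + v)) (sl u v) (Y u - 2 * sl u v * X u) := by
  have hu := notMem_of_two_mul hu2
  have hv := notMem_of_two_mul hv2
  obtain ⟨ν, hν⟩ : ∃ ν, ν = Y u - 2 * sl u v * X u := ⟨_, rfl⟩
  rw [← hν]
  have l1 : Y u = 2 * sl u v * X u + ν := by rw [hν]; ring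
  have l2 : Y v = 2 * sl u v * X v + ν := by
    have h := chord hu2 hv2 hd huv
    linear_combination l1 - h
  have c1 := Y_sq hu
  have c2 := Y_sq hv
  have e1 := sl_sq hu hv huv
  have e2 : X u * X v + X u * X (u + v) + X v * X (u + v) = -(sl u v * ν) := by
    have hX' : X u - X v ≠ 0 := sub_ne_zero.2 hX
    apply mul_left_cancel₀ hX'
    rw [l1] at c1
    rw [l2] at c2
    linear_combination (1 / 4) * c1 - (1 / 4) * c2 + (X u ^ 2 - X v ^ 2) * e1
  have e3 : 4 * (X u * X v * X (u + v)) = ν ^ 2 - 1 := by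
    have c1' := c1
    rw [l1] at c1'
    linear_combination -c1' - 4 * X u ^ 2 * e1 + 4 * X u * e2
  exact ⟨c1, c2, Y_sq huv, l1, l2, third_line hu2 hv huv ν l1 e1 e2 e3, e1, e2, e3⟩

/-- The line attached to a tangent. -/
theorem line_tangent {u : ℂ} (hu2 : 2 * u ∉ PP.lattice) :
    Line (X u) (Y u) (X u) (Y u) (X (u + u)) (Y (u + u)) (sl u u) (Y u - 2 * sl u u * X u) ∧
      sl u u * Y u = 3 * X u ^ 2 := by
  have hu := notMem_of_two_mul hu2
  have huu : u + u ∉ PP.lattice := by rwa [← two_mul]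
  obtain ⟨ν, hν⟩ : ∃ ν, ν = Y u - 2 * sl u u * X u := ⟨_, rfl⟩
  rw [← hν]
  have l1 : Y u = 2 * sl u u * X u + ν := by rw [hν]; ring
  have c1 := Y_sq hu
  have e1 := sl_sq hu hu huu
  have hs : sl u u * Y u = 3 * X u ^ 2 := by
    have h := slope_eq hu2
    rw [← h, sl, ← two_mul]
    ring
  have e2 : X u * X u + X u * X (u + u) + X u * X (u + u) = -(sl u u * ν) := by
    rw [l1] at hs
    linear_combination hs + 2 * X u * e1
  have e3 : 4 * (X u * X u * X (u + u)) = ν ^ 2 - 1 := by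
    have c1' := c1
    rw [l1] at c1'
    linear_combination -c1' - 4 * X u ^ 2 * e1 + 4 * X u * e2
  exact ⟨⟨c1, c1, Y_sq huu, l1, l1, third_line hu2 hu huu ν l1 e1 e2 e3, e1, e2, e3⟩, hs⟩

theorem mul_succ (k : ℕ) (z : ℂ) : ((k + 1 : ℕ) : ℂ) * z = (k : ℂ) * z + z := by
  push_cast
  ring

/-- Induction along the multiples of a point in the kernel of reduction. -/
theorem chain (h2 : A.valuation (2 : ℂ) = 1) {z : ℂ} {m : ℕ}
    (hm : ∀ k : ℕ, 0 < k → k < m → (k : ℂ) * z ∉ PP.lattice)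
    (hX : 1 < A.valuation (X z)) (hz : z ∉ PP.lattice) :
    ∀ k : ℕ, k + 1 < m → 1 < A.valuation (X (((k + 1 : ℕ) : ℂ) * z)) ∧
      A.valuation (X (((k + 1 : ℕ) : ℂ) * z) / Y (((k + 1 : ℕ) : ℂ) * z) -
        ((k + 1 : ℕ) : ℂ) * (X z / Y z)) < A.valuation (X z / Y z) := by
  have hYz := Y_sq hz
  have hY0 := Y_ne h2 hYz hX
  have hr0 : 0 < A.valuation (X z / Y z) := by
    rw [zero_lt_iff]
    exact (Valuation.ne_zero_iff _).2 (div_ne_zero (X_ne hX) hY0)
  have hr := v_t_lt h2 hYz hX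
  have h2z : 2 * z ∉ PP.lattice := by
    intro h
    exact hY0 (by rw [Y, Q_half h, zero_div])
  intro k
  induction k with
  | zero =>
    intro _
    rw [zero_add, Nat.cast_one, one_mul, one_mul, sub_self, map_zero]
    exact ⟨hX, hr0⟩
  | succ k ih =>
    intro hk
    obtain ⟨ih1, ih2⟩ := ih (by omega)
    set u : ℂ := ((k + 1 : ℕ) : ℂ) * z with hu
    have hun : u ∉ PP.lattice := hm (k + 1) (by omega) (by omega)
    have huv : u + z ∉ PP.lattice := by
      rw [hu, ← mul_succ]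
      exact hm _ (by omega) hk
    have hYu := Y_ne h2 (Y_sq hun) ih1
    have h2u : 2 * u ∉ PP.lattice := by
      intro h
      exact hYu (by rw [Y, Q_half h, zero_div])
    have hule : A.valuation (X u / Y u) ≤ A.valuation (X z / Y z) := by
      have e : X u / Y u = (X u / Y u - ((k + 1 : ℕ) : ℂ) * (X z / Y z)) +
        ((k + 1 : ℕ) : ℂ) * (X z / Y z) := by ring
      rw [e]
      refine Valuation.map_add_le _ ih2.le ?_
      rw [map_mul]
      have h3 := v_int_le (A := A) ((k + 1 : ℕ) : ℤ)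
      rw [Int.cast_natCast] at h3
      calc A.valuation ((k + 1 : ℕ) : ℂ) * A.valuation (X z / Y z)
          ≤ 1 * A.valuation (X z / Y z) := mul_le_mul' h3 le_rfl
        _ = _ := one_mul _
    have key : 1 < A.valuation (X (u + z)) ∧
        A.valuation (X (u + z) / Y (u + z) - X u / Y u - X z / Y z) < A.valuation (X z / Y z) := by
      rcases Nat.eq_zero_or_pos k with hk0 | hk0
      · have huz : u = z := by rw [hu, hk0]; simp
        rw [huz]
        obtain ⟨hl, hs⟩ := line_tangent h2z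
        exact est h2 hl (Or.inr ⟨rfl, hs⟩) hX hX _ hr0 hr le_rfl le_rfl
      · have hdf : u - z ∉ PP.lattice := by
          have e : u - z = (k : ℂ) * z := by rw [hu, mul_succ]; ring
          rw [e]
          exact hm k hk0 (by omega)
        have hXX : X u ≠ X z := by
          intro h
          have hP : PP.weierstrassP u = PP.weierstrassP z := by
            have hO := pow_ne_zero 2 Om_ne_zero
            rw [X, X, div_left_inj' hO] at h
            exact h
          have hQ : PP.derivWeierstrassP z ≠ 0 := by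
            intro hQ
            exact hY0 (by rw [Y, hQ, zero_div])
          rcases P_inj h2z hQ hun hP with h1 | h1
          · exact hdf h1
          · exact huv h1
        exact est h2 (line_chord h2u h2z hdf huv hXX) (Or.inl hXX) ih1 hX _ hr0 hr hule le_rfl
    have e1 : ((k + 1 + 1 : ℕ) : ℂ) * z = u + z := by rw [mul_succ, hu]
    rw [e1]
    refine ⟨key.1, ?_⟩
    have e2 : X (u + z) / Y (u + z) - ((k + 1 + 1 : ℕ) : ℂ) * (X z / Y z) =
        (X (u + z) / Y (u + z) - X u / Y u - X z / Y z) +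
          (X u / Y u - ((k + 1 : ℕ) : ℂ) * (X z / Y z)) := by
      rw [mul_succ (k + 1)]
      ring
    rw [e2]
    exact Valuation.map_add_lt _ key.2 ih2

/-- The exact order of a torsion point. -/
theorem exact_order {q m : ℕ} (hm : m.Coprime q) (hq : q ≠ 1) {z : ℂ}
    (hmz : (m : ℂ) * z ∈ PP.lattice) :
    ∃ n : ℕ, 0 < n ∧ n.Coprime q ∧ (n : ℂ) * z ∈ PP.lattice ∧
      ∀ k : ℕ, 0 < k → k < n → (k : ℂ) * z ∉ PP.lattice := by
  classical
  have hm0 : 0 < m := by
    rcases Nat.eq_zero_or_pos m with h | h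
    · rw [h, Nat.coprime_zero_left] at hm
      exact absurd hm hq
    · exact h
  have hex : ∃ n : ℕ, 0 < n ∧ (n : ℂ) * z ∈ PP.lattice := ⟨m, hm0, hmz⟩
  obtain ⟨h1, h2⟩ := Nat.find_spec hex
  have hmin : ∀ k : ℕ, 0 < k → k < Nat.find hex → (k : ℂ) * z ∉ PP.lattice := fun k hk hkn h =>
    Nat.find_min hex hkn ⟨hk, h⟩
  refine ⟨Nat.find hex, h1, ?_, h2, hmin⟩
  have hdvd : Nat.find hex ∣ m := by
    by_contra hnd
    have h3 : 0 < m % Nat.find hex := Nat.pos_of_ne_zero fun h => hnd (Nat.dvd_of_mod_eq_zero h)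
    refine hmin _ h3 (Nat.mod_lt _ h1) ?_
    have h4 : (m : ℂ) = (Nat.find hex : ℂ) * ((m / Nat.find hex : ℕ) : ℂ) +
        ((m % Nat.find hex : ℕ) : ℂ) := by
      exact_mod_cast (Nat.div_add_mod m (Nat.find hex)).symm
    have h5 : ((m % Nat.find hex : ℕ) : ℂ) * z = (m : ℂ) * z -
        (((m / Nat.find hex : ℕ) : ℤ) : ℂ) * ((Nat.find hex : ℂ) * z) := by
      rw [h4, Int.cast_natCast]
      ring
    rw [h5]
    exact sub_mem hmz (mul_int_mem h2 _)
  exact Nat.Coprime.coprime_dvd_left hdvd hm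

theorem v_cop {q : ℕ} (hA : (q : ℂ)⁻¹ ∉ A) {n : ℕ} (hn : n.Coprime q) :
    A.valuation (n : ℂ) = 1 := by
  have hle : A.valuation (n : ℂ) ≤ 1 := by
    have := v_int_le (A := A) (n : ℤ)
    rwa [Int.cast_natCast] at this
  refine le_antisymm hle ?_
  by_contra h
  push Not at h
  have hq : A.valuation (q : ℂ) < 1 := by
    by_contra h
    push Not at h
    apply hA
    rw [← A.valuation_le_one_iff, map_inv₀]
    exact inv_le_one_of_one_le₀ h
  have hb := Nat.gcd_eq_gcd_ab n q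
  rw [hn] at hb
  have e : (1 : ℂ) = (n : ℂ) * ((n.gcdA q : ℤ) : ℂ) + (q : ℂ) * ((n.gcdB q : ℤ) : ℂ) := by
    exact_mod_cast hb
  have h1 : A.valuation (1 : ℂ) < 1 := by
    rw [e]
    refine Valuation.map_add_lt _ ?_ ?_
    · rw [map_mul]
      exact mul_lt_one_of_lt_of_le h (v_int_le _)
    · rw [map_mul]
      exact mul_lt_one_of_lt_of_le hq (v_int_le _)
  rw [map_one] at h1
  exact lt_irrefl _ h1

/-- The abscissa of a torsion point of order prime to `q` is integral at `q`. -/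
theorem Xq_mem {q : ℕ} (hq : q ≠ 1) (hq2 : Nat.Coprime 2 q) (hA : (q : ℂ)⁻¹ ∉ A) {m : ℕ}
    (hm : m.Coprime q) {z : ℂ} (hmz : (m : ℂ) * z ∈ PP.lattice) (hz : z ∉ PP.lattice) :
    X z ∈ A := by
  rw [← A.valuation_le_one_iff]
  by_contra hc
  push Not at hc
  have h2 : A.valuation (2 : ℂ) = 1 := by
    have := v_cop hA hq2
    exact_mod_cast this
  obtain ⟨n, hn0, hn, hnz, hmin⟩ := exact_order hm hq hmz
  have hn1 : n ≠ 1 := by
    rintro rfl
    rw [Nat.cast_one, one_mul] at hnz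
    exact hz hnz
  obtain ⟨k, rfl⟩ : ∃ k, n = k + 2 := ⟨n - 2, by omega⟩
  have h := (chain h2 hmin hc hz k (by omega)).2
  have e : ((k + 1 : ℕ) : ℂ) * z = -z + ((k + 2 : ℕ) : ℂ) * z := by
    push_cast
    ring
  rw [e, X_add hnz, Y_add hnz, X_neg, Y_neg] at h
  have e2 : X z / -Y z - ((k + 1 : ℕ) : ℂ) * (X z / Y z) = -(((k + 2 : ℕ) : ℂ) * (X z / Y z)) := by
    rw [div_neg]
    push_cast
    ring
  rw [e2, Valuation.map_neg, map_mul, v_cop hA hn, one_mul] at h
  exact lt_irrefl _ h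

/-- The values of `E1` at the torsion points of order prime to `q`, divided by the period, are
integral at `q`. -/
theorem E1q_mem {q : ℕ} (hq : q ≠ 1) (hq2 : Nat.Coprime 2 q) (hA : (q : ℂ)⁻¹ ∉ A) {m : ℕ}
    (hm : m.Coprime q) {z : ℂ} (hmz : (m : ℂ) * z ∈ PP.lattice) : E1 z / Om ∈ A := by
  by_cases hz : z ∈ PP.lattice
  · rw [E1_coe hz, zero_div]
    exact A.zero_mem
  obtain ⟨n, hn0, hn, hnz, hmin⟩ := exact_order hm hq hmz
  have hn1 : n ≠ 1 := by
    rintro rfl
    rw [Nat.cast_one, one_mul] at hnz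
    exact hz hnz
  obtain ⟨N, rfl⟩ : ∃ k, n = k + 2 := ⟨n - 2, by omega⟩
  have hXk : ∀ k : ℕ, 0 < k → k < N + 2 → A.valuation (X ((k : ℂ) * z)) ≤ 1 := by
    intro k hk hkn
    rw [A.valuation_le_one_iff]
    refine Xq_mem hq hq2 hA hn ?_ (hmin k hk hkn)
    have := mul_int_mem hnz (k : ℤ)
    have e : ((k : ℤ) : ℂ) * (((N + 2 : ℕ) : ℂ) * z) = ((N + 2 : ℕ) : ℂ) * ((k : ℂ) * z) := by
      rw [Int.cast_natCast]
      ring
    rwa [e] at this
  have key : ∀ k : ℕ, k + 1 < N + 2 →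
      A.valuation (E1 (((k + 1 : ℕ) : ℂ) * z) / Om - ((k + 1 : ℕ) : ℂ) * (E1 z / Om)) ≤ 1 := by
    intro k
    induction k with
    | zero =>
      intro _
      rw [zero_add, Nat.cast_one, one_mul, one_mul, sub_self, map_zero]
      exact zero_le_one
    | succ k ih =>
      intro hk
      have ih1 := ih (by omega)
      have h1 := hmin (k + 1) (by omega) (by omega)
      have h2 := hmin (k + 1 + 1) (by omega) hk
      rw [mul_succ (k + 1)] at h2
      have h3 := sl_sq h1 hz h2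
      have h4 : A.valuation (sl (((k + 1 : ℕ) : ℂ) * z) z) ≤ 1 := by
        by_contra hc
        push Not at hc
        have h5 : 1 < A.valuation (sl (((k + 1 : ℕ) : ℂ) * z) z) ^ 2 := one_lt_pow₀ hc (by norm_num)
        rw [← map_pow, ← h3] at h5
        refine absurd h5 (not_lt.2 (Valuation.map_add_le _ (Valuation.map_add_le _ ?_ ?_) ?_))
        · exact hXk (k + 1) (by omega) (by omega)
        · have := hXk 1 (by omega) (by omega)
          rwa [Nat.cast_one, one_mul] at this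
        · rw [← mul_succ]
          exact hXk (k + 1 + 1) (by omega) hk
      have e : E1 (((k + 1 + 1 : ℕ) : ℂ) * z) / Om - ((k + 1 + 1 : ℕ) : ℂ) * (E1 z / Om) =
          sl (((k + 1 : ℕ) : ℂ) * z) z +
            (E1 (((k + 1 : ℕ) : ℂ) * z) / Om - ((k + 1 : ℕ) : ℂ) * (E1 z / Om)) := by
        rw [sl, mul_succ (k + 1), mul_succ (k + 1)]
        ring
      rw [e]
      exact Valuation.map_add_le _ h4 ih1
  have h := key N (by omega)
  have e : ((N + 1 : ℕ) : ℂ) * z = -z + ((N + 2 : ℕ) : ℂ) * z := by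
    push_cast
    ring
  rw [e, E1_add hnz, E1_neg] at h
  have e2 : -E1 z / Om - ((N + 1 : ℕ) : ℂ) * (E1 z / Om) = -(((N + 2 : ℕ) : ℂ) * (E1 z / Om)) := by
    push_cast
    ring
  rw [e2, Valuation.map_neg, map_mul, v_cop hA hn, one_mul] at h
  exact (A.valuation_le_one_iff _).1 h

/-- `E1 (1/3) / Om` is a unit at every place prime to `3`. -/
theorem E1q_third {q : ℕ} (hq3 : Nat.Coprime 3 q) (hA : (q : ℂ)⁻¹ ∉ A) :
    A.valuation (E1 (1 / 3) / Om) = 1 := by
  have h3 : A.valuation (3 : ℂ) = 1 := by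
    have := v_cop hA hq3
    exact_mod_cast this
  have hX : A.valuation (X (1 / 3)) = 1 := by
    have h1 := congrArg A.valuation X_third_cube
    rw [map_pow, Valuation.map_neg, map_one] at h1
    rcases lt_trichotomy (A.valuation (X (1 / 3))) 1 with h | h | h
    · exact absurd h1 (pow_lt_one₀ zero_le h (by norm_num)).ne
    · exact h
    · exact absurd h1 (one_lt_pow₀ h (by norm_num)).ne'
  have hs := sl_sq third_notMem third_notMem (by rw [← two_mul]; exact two_third_notMem)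
  have e1 : X (1 / 3 + 1 / 3) = X (1 / 3) := by
    rw [← two_mul, two_third, X_add one_mem, X_neg]
  have e2 : sl (1 / 3) (1 / 3) = -(3 * (E1 (1 / 3) / Om)) := by
    rw [sl, ← two_mul, two_third, E1_add one_mem, E1_neg]
    ring
  rw [e1, e2] at hs
  have e3 : X (1 / 3) = 3 * (E1 (1 / 3) / Om) ^ 2 := by
    have h30 : (3 : ℂ) ≠ 0 := by norm_num
    apply mul_left_cancel₀ h30
    linear_combination hs
  have h4 := congrArg A.valuation e3
  rw [hX, map_mul, h3, one_mul, map_pow] at h4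
  rcases lt_trichotomy (A.valuation (E1 (1 / 3) / Om)) 1 with h | h | h
  · exact absurd h4.symm (pow_lt_one₀ zero_le h (by norm_num)).ne
  · exact h
  · exact absurd h4.symm (one_lt_pow₀ h (by norm_num)).ne'

/-- There is a valuation ring of `ℂ` above a prime. -/
theorem exists_Aq {q : ℕ} (hq : q ≠ 1) : ∃ A : ValuationSubring ℂ, (q : ℂ)⁻¹ ∉ A ∨ q = 0 := by
  rcases Nat.eq_zero_or_pos q with h0 | h0
  · exact ⟨⊤, Or.inr h0⟩
  have h2 : (q : ℂ) ∈ (⊥ : Subring ℂ) := by
    have := intCast_mem (⊥ : Subring ℂ) (q : ℤ)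
    exact_mod_cast this
  have hI : Ideal.span {(⟨q, h2⟩ : (⊥ : Subring ℂ))} ≠ ⊤ := by
    intro h
    rw [Ideal.span_singleton_eq_top] at h
    obtain ⟨⟨b, hb⟩, e⟩ := isUnit_iff_exists_inv.mp h
    obtain ⟨n, rfl⟩ := Subring.mem_bot.1 hb
    have e2 : (q : ℂ) * n = 1 := congrArg Subtype.val e
    have e3 : (q : ℤ) * n = 1 := by exact_mod_cast e2
    have h3 := Int.eq_one_or_neg_one_of_mul_eq_one e3
    omega
  obtain ⟨B, _, hB⟩ := Ideal.image_subset_nonunits_valuationSubring _ hI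
  refine ⟨B, Or.inl ?_⟩
  have h3 : (q : ℂ) ∈ B.nonunits := hB ⟨⟨q, h2⟩, Ideal.mem_span_singleton_self _, rfl⟩
  rcases B.mem_nonunits_iff_or.1 h3 with h | h
  · exact absurd h (by exact_mod_cast h0.ne')
  · exact h

end

end Pool.Agent.Lib.MP_1a91b9_ntT.Ell
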