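import Pool.Agent.Lib.MP_1a91b9_ntT.S3.Third

/-!
# Stream D3, file Est: the group law on the kernel of reduction at an odd place

`q` is a natural number with `(q : ℂ)⁻¹ ∉ A` (a place above `q`), `A.valuation 2 = 1`.
The three points `(X₁, Y₁)`, `(X₂, Y₂)`, `(X₃, - Y₃)` lie on the line `Y = 2 s X + ν`; if the first
two are in the kernel of reduction then so is the third and `X₃ / Y₃` is approximately
`X₁ / Y₁ + X₂ / Y₂`.
-/

set_option autoImplicit false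

namespace Pool.Agent.Lib.MP_1a91b9_ntT.Ell

open Complex Pool.Agent.Lib.MP_1a91b9_ntT.S3

noncomputable section

section Alg

variable {A : ValuationSubring ℂ}

theorem v_four (h2 : A.valuation (2 : ℂ) = 1) : A.valuation (4 : ℂ) = 1 := by
  have e : (4 : ℂ) = 2 * 2 := by norm_num
  rw [e, map_mul, h2, mul_one]

theorem v_three_le : A.valuation (3 : ℂ) ≤ 1 := by
  have := v_int_le (A := A) 3
  exact_mod_cast this

/-- The relation between the ordinate and the abscissa in the kernel of reduction. -/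
theorem v_Y_sq (h2 : A.valuation (2 : ℂ) = 1) {X Y : ℂ} (hY : Y ^ 2 = 4 * X ^ 3 + 1)
    (hX : 1 < A.valuation X) : A.valuation Y ^ 2 = A.valuation X ^ 3 := by
  have h4 : A.valuation (4 * X ^ 3) = A.valuation X ^ 3 := by
    rw [map_mul, v_four h2, one_mul, map_pow]
  have h1 : 1 < A.valuation X ^ 3 := one_lt_pow₀ hX (by norm_num)
  rw [← map_pow, hY, Valuation.map_add_eq_of_lt_left, h4]
  rw [h4, map_one]
  exact h1

theorem Y_ne (h2 : A.valuation (2 : ℂ) = 1) {X Y : ℂ} (hY : Y ^ 2 = 4 * X ^ 3 + 1)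
    (hX : 1 < A.valuation X) : Y ≠ 0 := by
  intro h
  have h1 := v_Y_sq h2 hY hX
  rw [h, map_zero, zero_pow (by norm_num)] at h1
  have h3 : 0 < A.valuation X ^ 3 := pow_pos (lt_trans zero_lt_one hX) 3
  rw [← h1] at h3
  exact lt_irrefl _ h3

theorem X_ne {X : ℂ} (hX : 1 < A.valuation X) : X ≠ 0 := by
  rintro rfl
  rw [map_zero] at hX
  exact absurd hX (not_lt.2 zero_le_one)

/-- The local parameter is small. -/
theorem v_t_lt (h2 : A.valuation (2 : ℂ) = 1) {X Y : ℂ} (hY : Y ^ 2 = 4 * X ^ 3 + 1)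
    (hX : 1 < A.valuation X) : A.valuation (X / Y) < 1 := by
  have h1 := v_Y_sq h2 hY hX
  have hY0 := Y_ne h2 hY hX
  rw [map_div₀]
  have hx0 : 0 < A.valuation X := lt_trans zero_lt_one hX
  have hy0 : 0 < A.valuation Y := by
    rw [zero_lt_iff]
    exact (Valuation.ne_zero_iff _).2 hY0
  rw [div_lt_one₀ hy0]
  by_contra hc
  push Not at hc
  have h3 : A.valuation Y ^ 2 ≤ A.valuation X ^ 2 := pow_le_pow_left₀ hy0.le hc 2
  rw [h1] at h3
  have h4 : A.valuation X ^ 2 < A.valuation X ^ 3 := pow_lt_pow_right₀ hX (by norm_num)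
  exact absurd (lt_of_lt_of_le h4 h3) (lt_irrefl _)

/-- The second local coordinate. -/
theorem v_w_eq (h2 : A.valuation (2 : ℂ) = 1) {X Y : ℂ} (hY : Y ^ 2 = 4 * X ^ 3 + 1)
    (hX : 1 < A.valuation X) : A.valuation (1 / Y) = A.valuation (X / Y) ^ 3 := by
  have h1 := v_Y_sq h2 hY hX
  have hY0 := Y_ne h2 hY hX
  have hy0 : A.valuation Y ≠ 0 := (Valuation.ne_zero_iff _).2 hY0
  rw [map_div₀, map_div₀, map_one, div_pow, ← h1]
  field_simp

theorem w_eq {X Y : ℂ} (hY : Y ^ 2 = 4 * X ^ 3 + 1) (hY0 : Y ≠ 0) :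
    (1 / Y) * (1 - (1 / Y) ^ 2) = 4 * (X / Y) ^ 3 := by
  field_simp
  linear_combination hY

/-- The three points and their line. -/
structure Line (X₁ Y₁ X₂ Y₂ X₃ Y₃ s ν : ℂ) : Prop where
  c1 : Y₁ ^ 2 = 4 * X₁ ^ 3 + 1
  c2 : Y₂ ^ 2 = 4 * X₂ ^ 3 + 1
  c3 : Y₃ ^ 2 = 4 * X₃ ^ 3 + 1
  l1 : Y₁ = 2 * s * X₁ + ν
  l2 : Y₂ = 2 * s * X₂ + ν
  l3 : -Y₃ = 2 * s * X₃ + ν
  e1 : X₁ + X₂ + X₃ = s ^ 2
  e2 : X₁ * X₂ + X₁ * X₃ + X₂ * X₃ = -(s * ν)
  e3 : 4 * (X₁ * X₂ * X₃) = ν ^ 2 - 1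

/-- The key relation for the slope. -/
theorem slope_key (h2 : A.valuation (2 : ℂ) = 1) {X₁ Y₁ X₂ Y₂ X₃ Y₃ s ν : ℂ}
    (h : Line X₁ Y₁ X₂ Y₂ X₃ Y₃ s ν) (hd : X₁ ≠ X₂ ∨ (X₁ = X₂ ∧ s * Y₁ = 3 * X₁ ^ 2))
    (hX₁ : 1 < A.valuation X₁) (hX₂ : 1 < A.valuation X₂) :
    s * (1 - ((1 / Y₁) ^ 2 + (1 / Y₁) * (1 / Y₂) + (1 / Y₂) ^ 2)) =
      -(2 * ν * ((X₁ / Y₁) ^ 2 + (X₁ / Y₁) * (X₂ / Y₂) + (X₂ / Y₂) ^ 2)) := by
  have hY₁ := Y_ne h2 h.c1 hX₁
  have hY₂ := Y_ne h2 h.c2 hX₂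
  rcases hd with hd | ⟨hd, hs⟩
  · have e1 := w_eq h.c1 hY₁
    have e2 := w_eq h.c2 hY₂
    have f1 : ν * (1 / Y₁) + 2 * s * (X₁ / Y₁) = 1 := by
      field_simp
      rw [h.l1]; ring
    have f2 : ν * (1 / Y₂) + 2 * s * (X₂ / Y₂) = 1 := by
      field_simp
      rw [h.l2]; ring
    have hX1 : X₁ = (X₁ / Y₁) / (1 / Y₁) := by field_simp
    have hX2 : X₂ = (X₂ / Y₂) / (1 / Y₂) := by field_simp
    have ha0 : (1 / Y₁) ≠ 0 := one_div_ne_zero hY₁
    have hwa : A.valuation (1 / Y₁) < 1 := by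
      rw [v_w_eq h2 h.c1 hX₁]
      exact pow_lt_one₀ zero_le (v_t_lt h2 h.c1 hX₁) (by norm_num)
    have hwb : A.valuation (1 / Y₂) < 1 := by
      rw [v_w_eq h2 h.c2 hX₂]
      exact pow_lt_one₀ zero_le (v_t_lt h2 h.c2 hX₂) (by norm_num)
    generalize X₁ / Y₁ = a at *
    generalize X₂ / Y₂ = b at *
    generalize 1 / Y₁ = α at *
    generalize 1 / Y₂ = β at *
    have hQ : (1 : ℂ) - (α ^ 2 + α * β + β ^ 2) ≠ 0 := by
      intro hQ
      have h5 : A.valuation (α ^ 2 + α * β + β ^ 2) < 1 := by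
        refine Valuation.map_add_lt _ (Valuation.map_add_lt _ ?_ ?_) ?_
        · rw [map_pow]
          exact pow_lt_one₀ zero_le hwa (by norm_num)
        · rw [map_mul]
          exact mul_lt_one_of_lt_of_le hwa hwb.le
        · rw [map_pow]
          exact pow_lt_one₀ zero_le hwb (by norm_num)
      have h6 : α ^ 2 + α * β + β ^ 2 = 1 := by linear_combination -hQ
      rw [h6, map_one] at h5
      exact lt_irrefl _ h5
    have key : (α - β) * (1 - (α ^ 2 + α * β + β ^ 2)) = 4 * (a - b) * (a ^ 2 + a * b + b ^ 2) := by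
      linear_combination e1 - e2
    have hab : a - b ≠ 0 := by
      intro hab
      rw [hab, mul_zero, zero_mul] at key
      rcases mul_eq_zero.1 key with h7 | h7
      · apply hd
        rw [hX1, hX2, sub_eq_zero.1 hab, sub_eq_zero.1 h7]
      · exact hQ h7
    apply mul_left_cancel₀ hab
    linear_combination (-ν / 2) * key + (1 / 2) * (1 - (α ^ 2 + α * β + β ^ 2)) * (f1 - f2)
  · subst hd
    have hYY : Y₂ = Y₁ := by rw [h.l1, h.l2]
    subst hYY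
    field_simp
    have c1 := h.c1
    have l1 := h.l1
    apply mul_left_cancel₀ hY₂
    linear_combination (Y₂ ^ 2 - 3 - 12 * X₁ ^ 3) * hs + 9 * X₁ ^ 2 * c1 - 6 * X₁ ^ 2 * Y₂ * l1

/-- The sum of the three local parameters. -/
theorem sum_t {X₁ Y₁ X₂ Y₂ X₃ Y₃ s ν : ℂ} (h : Line X₁ Y₁ X₂ Y₂ X₃ Y₃ s ν) :
    Y₁ * Y₂ * (-Y₃) = ν ^ 3 - 2 * s ^ 3 ∧
      X₁ * Y₂ * (-Y₃) + X₂ * Y₁ * (-Y₃) + X₃ * Y₁ * Y₂ = -(3 * s ^ 2) := by
  rw [h.l3, h.l1, h.l2]
  have e1 := h.e1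
  have e2 := h.e2
  have e3 := h.e3
  constructor
  · linear_combination 2 * s * ν ^ 2 * e1 + 4 * s ^ 2 * ν * e2 + 2 * s ^ 3 * e3
  · linear_combination ν ^ 2 * e1 + 4 * s * ν * e2 + 3 * s ^ 2 * e3

/-- The estimate for the third point. -/
theorem est (h2 : A.valuation (2 : ℂ) = 1) {X₁ Y₁ X₂ Y₂ X₃ Y₃ s ν : ℂ}
    (h : Line X₁ Y₁ X₂ Y₂ X₃ Y₃ s ν) (hd : X₁ ≠ X₂ ∨ (X₁ = X₂ ∧ s * Y₁ = 3 * X₁ ^ 2))
    (hX₁ : 1 < A.valuation X₁) (hX₂ : 1 < A.valuation X₂) (r : A.ValueGroup) (hr0 : 0 < r)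
    (hr : r < 1) (h₁ : A.valuation (X₁ / Y₁) ≤ r) (h₂ : A.valuation (X₂ / Y₂) ≤ r) :
    1 < A.valuation X₃ ∧ A.valuation (X₃ / Y₃ - X₁ / Y₁ - X₂ / Y₂) < r := by
  have hY₁ := Y_ne h2 h.c1 hX₁
  have hY₂ := Y_ne h2 h.c2 hX₂
  have key := slope_key h2 h hd hX₁ hX₂
  have hw₁ : A.valuation (1 / Y₁) ≤ r ^ 3 := by
    rw [v_w_eq h2 h.c1 hX₁]
    exact pow_le_pow_left₀ zero_le h₁ 3
  have hw₂ : A.valuation (1 / Y₂) ≤ r ^ 3 := by
    rw [v_w_eq h2 h.c2 hX₂]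
    exact pow_le_pow_left₀ zero_le h₂ 3
  have hr3 : r ^ 3 < 1 := pow_lt_one₀ hr0.le hr (by norm_num)
  have hQ : A.valuation (1 - ((1 / Y₁) ^ 2 + (1 / Y₁) * (1 / Y₂) + (1 / Y₂) ^ 2)) = 1 := by
    rw [Valuation.map_sub_eq_of_lt_left, map_one]
    rw [map_one]
    refine Valuation.map_add_lt _ (Valuation.map_add_lt _ ?_ ?_) ?_
    · rw [map_pow]
      exact pow_lt_one₀ zero_le (lt_of_le_of_lt hw₁ hr3) (by norm_num)
    · rw [map_mul]
      exact mul_lt_one_of_lt_of_le (lt_of_le_of_lt hw₁ hr3) (lt_of_le_of_lt hw₂ hr3).le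
    · rw [map_pow]
      exact pow_lt_one₀ zero_le (lt_of_le_of_lt hw₂ hr3) (by norm_num)
  have hT : A.valuation ((X₁ / Y₁) ^ 2 + (X₁ / Y₁) * (X₂ / Y₂) + (X₂ / Y₂) ^ 2) ≤ r ^ 2 := by
    refine Valuation.map_add_le _ (Valuation.map_add_le _ ?_ ?_) ?_
    · rw [map_pow]
      exact pow_le_pow_left₀ zero_le h₁ 2
    · rw [map_mul, pow_two]
      exact mul_le_mul' h₁ h₂
    · rw [map_pow]
      exact pow_le_pow_left₀ zero_le h₂ 2
  have hs : A.valuation s ≤ A.valuation ν * r ^ 2 := by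
    have h1 := congrArg A.valuation key
    rw [map_mul, hQ, mul_one, Valuation.map_neg, map_mul, map_mul, h2, one_mul] at h1
    rw [h1]
    exact mul_le_mul' le_rfl hT
  have hν : 1 ≤ A.valuation ν * r ^ 3 := by
    have f1 : ν * (1 / Y₁) + 2 * s * (X₁ / Y₁) = 1 := by
      field_simp
      rw [h.l1]; ring
    have h1 := congrArg A.valuation f1
    rw [map_one] at h1
    rw [← h1]
    refine Valuation.map_add_le _ ?_ ?_
    · rw [map_mul]
      exact mul_le_mul' le_rfl hw₁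
    · rw [map_mul, map_mul, h2, one_mul, pow_succ, ← mul_assoc]
      exact mul_le_mul' hs h₁
  have hν0 : ν ≠ 0 := by
    rintro rfl
    rw [map_zero, zero_mul] at hν
    exact absurd hν (not_le.2 zero_lt_one)
  have hvν : A.valuation ν ≠ 0 := (Valuation.ne_zero_iff _).2 hν0
  have hσ : A.valuation (s / ν) ≤ r ^ 2 := by
    rw [map_div₀]
    exact div_le_of_le_mul₀ zero_le zero_le (by rw [mul_comm]; exact hs)
  have hμ : A.valuation (1 / ν) ≤ r ^ 3 := by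
    rw [map_div₀, map_one]
    exact div_le_of_le_mul₀ zero_le zero_le (by rw [mul_comm]; exact hν)
  have hX₃ : 1 < A.valuation X₃ := by
    by_contra hc
    push Not at hc
    have hY₃ : A.valuation Y₃ ≤ 1 := by
      by_contra hY
      push Not at hY
      have h3 : 1 < A.valuation Y₃ ^ 2 := one_lt_pow₀ hY (by norm_num)
      rw [← map_pow, h.c3] at h3
      refine absurd h3 (not_lt.2 (Valuation.map_add_le _ ?_ ?_))
      · rw [map_mul, v_four h2, one_mul, map_pow]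
        exact pow_le_one₀ zero_le hc
      · rw [map_one]
    have e : -(Y₃ * (1 / ν)) - 2 * (s / ν) * X₃ = 1 := by
      field_simp
      rw [h.l3]; ring
    have h3 : A.valuation (-(Y₃ * (1 / ν)) - 2 * (s / ν) * X₃) < 1 := by
      refine Valuation.map_sub_lt _ ?_ ?_
      · rw [Valuation.map_neg, map_mul, mul_comm]
        exact mul_lt_one_of_lt_of_le (lt_of_le_of_lt hμ hr3) hY₃
      · rw [map_mul, map_mul, h2, one_mul]
        exact mul_lt_one_of_lt_of_le (lt_of_le_of_lt hσ (pow_lt_one₀ hr0.le hr (by norm_num))) hc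
    rw [e, map_one] at h3
    exact lt_irrefl _ h3
  refine ⟨hX₃, ?_⟩
  have hY₃ := Y_ne h2 h.c3 hX₃
  obtain ⟨p1, p2⟩ := sum_t h
  have hden : A.valuation (1 - 2 * (s / ν) ^ 3) = 1 := by
    rw [Valuation.map_sub_eq_of_lt_left, map_one]
    rw [map_one, map_mul, h2, one_mul, map_pow]
    exact pow_lt_one₀ zero_le (lt_of_le_of_lt hσ (pow_lt_one₀ hr0.le hr (by norm_num))) (by norm_num)
  have e : (X₃ / Y₃ - X₁ / Y₁ - X₂ / Y₂) * (1 - 2 * (s / ν) ^ 3) =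
      3 * (s / ν) ^ 2 * (1 / ν) := by
    have e1 : (X₃ / Y₃ - X₁ / Y₁ - X₂ / Y₂) * (Y₁ * Y₂ * (-Y₃)) = 3 * s ^ 2 := by
      field_simp
      linear_combination -p2
    rw [p1] at e1
    have e2 : (1 - 2 * (s / ν) ^ 3) = (ν ^ 3 - 2 * s ^ 3) * (1 / ν) ^ 3 := by
      field_simp
    rw [e2, ← mul_assoc, e1]
    field_simp
  have h5 := congrArg A.valuation e
  rw [map_mul, hden, mul_one] at h5
  rw [h5, map_mul, map_mul, map_pow]
  calc A.valuation 3 * A.valuation (s / ν) ^ 2 * A.valuation (1 / ν)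
      ≤ 1 * (r ^ 2) ^ 2 * r ^ 3 := by
        refine mul_le_mul' (mul_le_mul' v_three_le (pow_le_pow_left₀ zero_le hσ 2)) hμ
    _ = r * r ^ 6 := by rw [one_mul, ← pow_mul, ← pow_add, ← pow_succ']
    _ < r * 1 := by
        exact mul_lt_mul_of_pos_left (pow_lt_one₀ hr0.le hr (by norm_num)) hr0
    _ = r := mul_one r

end Alg

end

end Pool.Agent.Lib.MP_1a91b9_ntT.Ell
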