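import Pool.Agent.Lib.MP_1a91b9_ntT.D3.Tors
import Pool.Agent.Lib.MP_1a91b9_ntT.S3.Iface

/-!
# Stream D3: interface, places of `ℂ` above a prime number `q`
-/

set_option autoImplicit false

namespace Pool.Agent.Lib.MP_1a91b9_ntT.Ell

open Complex

noncomputable section

/-- A place of `ℂ` above `q`. -/
def Pl (q : ℕ) (A : ValuationSubring ℂ) : Prop := (q : ℂ)⁻¹ ∉ A

/-- A natural number prime to `q` is a unit of `A`. -/
theorem d3_inv {q : ℕ} (A : ValuationSubring ℂ) (hA : Pl q A) (n : ℕ) (hn : n.Coprime q) :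
    (n : ℂ)⁻¹ ∈ A := by
  rw [← A.valuation_le_one_iff, map_inv₀, v_cop hA hn, inv_one]

/-- `q`-integrality of `E1` at torsion points of order prime to `q`. -/
theorem d3_mem {q : ℕ} (hq : q.Prime) (A : ValuationSubring ℂ) (hA : Pl q A) (m : ℕ)
    (hm : m.Coprime q) (z : ℂ) (hz : ∃ l : ℤ × ℤ, (m : ℂ) * z = lp l) : E1 z / Om ∈ A := by
  obtain ⟨l, hl⟩ := hz
  have hmz : (m : ℂ) * z ∈ PP.lattice := by
    rw [hl]
    exact S3.lp_mem l
  rcases hq.eq_two_or_odd with h2 | h2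
  · subst h2
    refine S3.E1_mem ?_ (Nat.coprime_two_right.1 hm) hmz
    have h := hA
    rw [Pl] at h
    exact_mod_cast h
  · refine E1q_mem hq.one_lt.ne' ?_ hA hm hmz
    rw [Nat.coprime_two_left, Nat.odd_iff]
    exact h2

/-- `E1 (1/3) / Om` is a unit at every place prime to `3`. -/
theorem d3_unit {q : ℕ} (hq : q.Prime) (hq3 : q ≠ 3) (A : ValuationSubring ℂ) (hA : Pl q A) :
    E1 (1 / 3) ≠ 0 ∧ (E1 (1 / 3) / Om)⁻¹ ∈ A ∧ E1 (1 / 3) / Om ∈ A := by
  have h3 : Nat.Coprime 3 q := (Nat.coprime_primes Nat.prime_three hq).2 hq3.symm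
  have h := E1q_third h3 hA
  refine ⟨S3.E1_third_ne_zero, ?_, ?_⟩
  · rw [← A.valuation_le_one_iff, map_inv₀, h, inv_one]
  · rw [← A.valuation_le_one_iff, h]

/-- There are places above every prime number. -/
theorem d3_exists {q : ℕ} (hq : q.Prime) : ∃ A : ValuationSubring ℂ, Pl q A := by
  obtain ⟨A, h | h⟩ := exists_Aq hq.one_lt.ne'
  · exact ⟨A, h⟩
  · exact absurd h hq.ne_zero

end

end Pool.Agent.Lib.MP_1a91b9_ntT.Ell
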